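import Pool.Agent.TokenGame.Upper

set_option autoImplicit false

/-! The two bounds for the value of the game on `C5plus`. -/

namespace Pool.Agent.TokenGame

theorem card_union_le_sub (A B D : Finset ℕ) (h : D ⊆ A ∩ B) :
    (A ∪ B).card + D.card ≤ A.card + B.card := by
  have h1 := Finset.card_union_add_card_inter A B
  have h2 := Finset.card_le_card h
  omega

theorem upper (w : ℕ) : ∃ σ : List (Fin 5) → ℕ, Guarantees C5plus w (w + (w + 2) / 4) σ := by
  obtain ⟨σ, hσ⟩ := exists_strategy (Legal C5plus w) (HInv w ((w + 2) / 4))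
    (HInv.nil w _) (fun v l h => h.tail)
    (fun h v hi hl => hi.step (by omega) hl.colorable)
  refine ⟨σ, fun l hl => ?_⟩
  obtain ⟨C, hb, hn⟩ := hσ l hl
  constructor
  · rintro i j ⟨hij, hadj⟩ hc
    rcases hadj with hv | hv
    · apply hij
      have hi : (i : ℕ) < (run σ l).length := by rw [run_length]; exact i.2
      have hj : (j : ℕ) < (run σ l).length := by rw [run_length]; exact j.2
      have e : (run σ l)[(i : ℕ)] = (run σ l)[(j : ℕ)] := by
        rw [run_getElem σ l i i.2, run_getElem σ l j j.2]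
        exact Prod.ext hv hc
      exact Fin.ext ((List.Nodup.getElem_inj_iff hb.nodup).1 e)
    · have m1 : colourOf σ l i ∈ C (l.get i) := (hb.mem _ _).1 ((mem_run_iff σ l _ _).2 ⟨i, rfl, rfl⟩)
      have m2 : colourOf σ l j ∈ C (l.get j) := (hb.mem _ _).1 ((mem_run_iff σ l _ _).2 ⟨j, rfl, rfl⟩)
      rw [hc] at m1
      exact Finset.disjoint_left.1 (hb.disj _ _ hv) m1 m2
  · have hsub : Finset.univ.image (colourOf σ l) ⊆ (((C 0 ∪ C 3) ∪ C 1) ∪ C 4) ∪ C 2 := by
      intro c hc
      rw [Finset.mem_image] at hc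
      obtain ⟨i, -, rfl⟩ := hc
      have m1 : colourOf σ l i ∈ C (l.get i) := (hb.mem _ _).1 ((mem_run_iff σ l _ _).2 ⟨i, rfl, rfl⟩)
      simp only [Finset.mem_union]
      rcases five_cases (l.get i) with h | h | h | h | h <;> rw [h] at m1 <;> tauto
    have h0 := Finset.card_le_card hsub
    have h1 := card_union_le_sub (C 0) (C 3) (C 0 ∩ C 3) (Finset.Subset.refl _)
    have h2 := card_union_le_sub (C 0 ∪ C 3) (C 1) (C 3 ∩ C 1)
      (Finset.inter_subset_inter_right Finset.subset_union_right)
    have h3 := card_union_le_sub ((C 0 ∪ C 3) ∪ C 1) (C 4) (C 1 ∩ C 4)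
      (Finset.inter_subset_inter_right Finset.subset_union_right)
    have h4 := card_union_le_sub (((C 0 ∪ C 3) ∪ C 1) ∪ C 4) (C 2) (C 4 ∩ C 2)
      (Finset.inter_subset_inter_right Finset.subset_union_right)
    have hC := hn.C
    omega

/-- A play is legal when each vertex can be given an interval of colours, intervals of adjacent
vertices being disjoint. -/
theorem colorable_of_intervals {V : Type*} [DecidableEq V] (G : SimpleGraph V) (w : ℕ) (l : List V)
    (start : V → ℕ) (size : V → ℕ) (hcount : ∀ v, l.count v ≤ size v)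
    (hle : ∀ v ∈ l, start v + size v ≤ w)
    (hdis : ∀ u ∈ l, ∀ v ∈ l, G.Adj u v →
      start u + size u ≤ start v ∨ start v + size v ≤ start u) :
    (tokenGraph G l).Colorable w := by
  -- the colour of token `i` is `start v` plus the number of later positions with the same vertex
  have hrank : ∀ i : Fin l.length, ((l.drop (i + 1)).count (l.get i)) + 1 ≤ size (l.get i) := by
    intro i
    have h1 : l.drop i = l.get i :: l.drop (i + 1) := by
      simp
    have h2 : (l.drop i).count (l.get i) = (l.drop (i + 1)).count (l.get i) + 1 := by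
      conv_lhs => rw [h1]
      rw [List.count_cons_self]
    have h3 : (l.drop i).count (l.get i) ≤ l.count (l.get i) :=
      List.Sublist.count_le _ (List.drop_sublist _ _)
    have := hcount (l.get i)
    omega
  have hmem : ∀ i : Fin l.length, l.get i ∈ l := fun i => List.get_mem l i
  refine ⟨SimpleGraph.Coloring.mk (fun i => (⟨start (l.get i) + (l.drop (i + 1)).count (l.get i),
    by have := hrank i; have := hle _ (hmem i); omega⟩ : Fin w)) ?_⟩
  rintro i j ⟨hij, hadj⟩ heq
  rw [Fin.mk.injEq] at heq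
  rcases hadj with hv | hv
  · -- same vertex: the ranks differ
    have key : ∀ i j : Fin l.length, i < j → l.get i = l.get j →
        (l.drop (j + 1)).count (l.get j) < (l.drop (i + 1)).count (l.get i) := by
      intro i j hlt hv
      have h1 : l.drop j = l.get j :: l.drop (j + 1) := by simp
      have h2 : (l.drop j).count (l.get j) = (l.drop (j + 1)).count (l.get j) + 1 := by
        conv_lhs => rw [h1]
        rw [List.count_cons_self]
      have h3 : (l.drop j).count (l.get j) ≤ (l.drop (i + 1)).count (l.get j) := by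
        have : l.drop j = (l.drop (i + 1)).drop (j - (i + 1)) := by
          rw [List.drop_drop]; congr 1; omega
        rw [this]
        exact List.Sublist.count_le _ (List.drop_sublist _ _)
      rw [hv]
      omega
    rcases lt_or_gt_of_ne hij with h | h
    · have := key i j h hv
      rw [hv] at heq this
      omega
    · have := key j i h hv.symm
      rw [← hv] at heq this
      omega
  · have h1 := hrank i
    have h2 := hrank j
    rcases hdis _ (hmem i) _ (hmem j) hv with h | h <;> omega

theorem legal_of_intervals {V : Type*} [DecidableEq V] (G : SimpleGraph V) (w : ℕ) (l : List V)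
    (start : V → ℕ) (size : V → ℕ) (hcount : ∀ v, l.count v ≤ size v)
    (hle : ∀ v, start v + size v ≤ w)
    (hdis : ∀ u v, G.Adj u v → start u + size u ≤ start v ∨ start v + size v ≤ start u) :
    Legal G w l := fun k =>
  colorable_of_intervals G w (l.drop k) start size
    (fun v => (List.Sublist.count_le _ (List.drop_sublist _ _)).trans (hcount v))
    (fun v _ => hle v) (fun u _ v _ h => hdis u v h)

theorem mem_run_append {V : Type*} (σ : List V → ℕ) (l' l : List V) (t : V × ℕ)
    (h : t ∈ run σ l) : t ∈ run σ (l' ++ l) := by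
  induction l' with
  | nil => exact h
  | cons v l' ih => exact List.mem_cons_of_mem _ ih

section CS

variable {V : Type*} [DecidableEq V]

/-- The set of colours on the vertex `v`. -/
def CS (σ : List V → ℕ) (l : List V) (v : V) : Finset ℕ :=
  (Finset.univ.filter (fun i : Fin l.length => l.get i = v)).image (colourOf σ l)

theorem mem_CS (σ : List V → ℕ) (l : List V) (v : V) (c : ℕ) :
    c ∈ CS σ l v ↔ (v, c) ∈ run σ l := by
  rw [mem_run_iff]
  simp [CS]

theorem CS_mono (σ : List V → ℕ) (l' l : List V) (v : V) : CS σ l v ⊆ CS σ (l' ++ l) v := by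
  intro c hc
  rw [mem_CS] at hc ⊢
  exact mem_run_append σ l' l _ hc

theorem card_CS {G : SimpleGraph V} {w c : ℕ} {σ : List V → ℕ} (h : Guarantees G w c σ)
    {l : List V} (hl : Legal G w l) (v : V) : (CS σ l v).card = l.count v := by
  rw [CS, Finset.card_image_of_injOn, card_filter_get]
  intro i hi j hj hij
  by_contra hne
  simp only [Finset.coe_filter, Finset.mem_univ, true_and, Set.mem_ofPred_eq] at hi hj
  exact (h l hl).1 i j ⟨hne, Or.inl (hi.trans hj.symm)⟩ hij

theorem disj_CS {G : SimpleGraph V} {w c : ℕ} {σ : List V → ℕ} (h : Guarantees G w c σ)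
    {l : List V} (hl : Legal G w l) {u v : V} (huv : G.Adj u v) :
    Disjoint (CS σ l u) (CS σ l v) := by
  rw [Finset.disjoint_left]
  intro c hc hc'
  simp only [CS, Finset.mem_image, Finset.mem_filter, Finset.mem_univ, true_and] at hc hc'
  obtain ⟨i, hi, hic⟩ := hc
  obtain ⟨j, hj, hjc⟩ := hc'
  refine (h l hl).1 i j ⟨?_, Or.inr (by rw [hi, hj]; exact huv)⟩ (hic.trans hjc.symm)
  rintro rfl
  rw [← hi, ← hj] at huv
  exact huv.ne rfl

theorem card_le_of_subset_CS {G : SimpleGraph V} {w c : ℕ} {σ : List V → ℕ}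
    (h : Guarantees G w c σ) {l : List V} (hl : Legal G w l) (S : Finset ℕ)
    (hS : ∀ x ∈ S, ∃ v, x ∈ CS σ l v) : S.card ≤ c := by
  refine le_trans (Finset.card_le_card ?_) (h l hl).2
  intro x hx
  obtain ⟨v, hv⟩ := hS x hx
  simp only [CS, Finset.mem_image, Finset.mem_filter, Finset.mem_univ, true_and] at hv
  obtain ⟨i, -, hi⟩ := hv
  rw [Finset.mem_image]
  exact ⟨i, Finset.mem_univ _, hi⟩

end CS

theorem lower (w c : ℕ) (σ : List (Fin 5) → ℕ) (h : Guarantees C5plus w c σ) :
    w + (w + 2) / 4 ≤ c := by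
  set a := w / 2 with ha
  set b := w - w / 2 with hb
  -- the common beginning of the two plays, most recent token first
  set l0 : List (Fin 5) :=
    List.replicate a 1 ++ (List.replicate b 4 ++ List.replicate a 3) with hl0
  set lA : List (Fin 5) := List.replicate a 0 ++ l0 with hlA
  set lB : List (Fin 5) := List.replicate b 2 ++ l0 with hlB
  have legA : Legal C5plus w lA := by
    refine legal_of_intervals C5plus w lA (fun v => if v = 1 ∨ v = 4 then a else 0)
      (fun v => if v = 4 then b else if v = 2 then 0 else a) ?_ ?_ ?_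
    · intro v
      rcases five_cases v with rfl | rfl | rfl | rfl | rfl <;>
        simp [hlA, hl0, List.count_append, List.count_replicate]
    · intro v
      rcases five_cases v with rfl | rfl | rfl | rfl | rfl <;> simp <;> omega
    · intro u v huv
      rw [C5plus_adj_iff] at huv
      rcases huv with ⟨rfl, rfl⟩ | ⟨rfl, rfl⟩ | ⟨rfl, rfl⟩ | ⟨rfl, rfl⟩ | ⟨rfl, rfl⟩ | ⟨rfl, rfl⟩ |
        ⟨rfl, rfl⟩ | ⟨rfl, rfl⟩ | ⟨rfl, rfl⟩ | ⟨rfl, rfl⟩ | ⟨rfl, rfl⟩ | ⟨rfl, rfl⟩ <;> simp
  have legB : Legal C5plus w lB := by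
    refine legal_of_intervals C5plus w lB (fun v => if v = 2 ∨ v = 4 then a else 0)
      (fun v => if v = 4 ∨ v = 2 then b else if v = 0 then 0 else a) ?_ ?_ ?_
    · intro v
      rcases five_cases v with rfl | rfl | rfl | rfl | rfl <;>
        simp [hlB, hl0, List.count_append, List.count_replicate]
    · intro v
      rcases five_cases v with rfl | rfl | rfl | rfl | rfl <;> simp <;> omega
    · intro u v huv
      rw [C5plus_adj_iff] at huv
      rcases huv with ⟨rfl, rfl⟩ | ⟨rfl, rfl⟩ | ⟨rfl, rfl⟩ | ⟨rfl, rfl⟩ | ⟨rfl, rfl⟩ | ⟨rfl, rfl⟩ |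
        ⟨rfl, rfl⟩ | ⟨rfl, rfl⟩ | ⟨rfl, rfl⟩ | ⟨rfl, rfl⟩ | ⟨rfl, rfl⟩ | ⟨rfl, rfl⟩ <;> simp
  have leg0 : Legal C5plus w l0 := by
    intro k
    have := legA (a + k)
    rw [hlA, ← List.drop_drop, List.drop_left' (List.length_replicate)] at this
    exact this
  -- the colour sets
  have n1 : (CS σ l0 1).card = a := by
    rw [card_CS h leg0]; simp [hl0, List.count_append, List.count_replicate]
  have n3 : (CS σ l0 3).card = a := by
    rw [card_CS h leg0]; simp [hl0, List.count_append, List.count_replicate]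
  have n4 : (CS σ l0 4).card = b := by
    rw [card_CS h leg0]; simp [hl0, List.count_append, List.count_replicate]
  have nA : (CS σ lA 0).card = a := by
    rw [card_CS h legA]; simp [hlA, hl0, List.count_append, List.count_replicate]
  have nB : (CS σ lB 2).card = b := by
    rw [card_CS h legB]; simp [hlB, hl0, List.count_append, List.count_replicate]
  have d34 : Disjoint (CS σ l0 3) (CS σ l0 4) := disj_CS h leg0 (by decide)
  have dA1 : Disjoint (CS σ lA 0) (CS σ l0 1) :=
    (disj_CS h legA (show C5plus.Adj 0 1 by decide)).mono_right (CS_mono σ _ l0 1)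
  have dA4 : Disjoint (CS σ lA 0) (CS σ l0 4) :=
    (disj_CS h legA (show C5plus.Adj 0 4 by decide)).mono_right (CS_mono σ _ l0 4)
  have dB1 : Disjoint (CS σ lB 2) (CS σ l0 1) :=
    (disj_CS h legB (show C5plus.Adj 2 1 by decide)).mono_right (CS_mono σ _ l0 1)
  have dB3 : Disjoint (CS σ lB 2) (CS σ l0 3) :=
    (disj_CS h legB (show C5plus.Adj 2 3 by decide)).mono_right (CS_mono σ _ l0 3)
  -- the number of colours in the two plays
  have eA : (CS σ lA 0 ∪ (CS σ l0 1 ∪ CS σ l0 4)).card ≤ c := by
    apply card_le_of_subset_CS h legA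
    intro x hx
    rw [Finset.mem_union, Finset.mem_union] at hx
    rcases hx with hx | hx | hx
    · exact ⟨0, hx⟩
    · exact ⟨1, CS_mono σ _ l0 1 hx⟩
    · exact ⟨4, CS_mono σ _ l0 4 hx⟩
  have eB : (CS σ lB 2 ∪ (CS σ l0 1 ∪ CS σ l0 3)).card ≤ c := by
    apply card_le_of_subset_CS h legB
    intro x hx
    rw [Finset.mem_union, Finset.mem_union] at hx
    rcases hx with hx | hx | hx
    · exact ⟨2, hx⟩
    · exact ⟨1, CS_mono σ _ l0 1 hx⟩
    · exact ⟨3, CS_mono σ _ l0 3 hx⟩
  rw [Finset.card_union_of_disjoint (Finset.disjoint_union_right.2 ⟨dA1, dA4⟩)] at eA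
  rw [Finset.card_union_of_disjoint (Finset.disjoint_union_right.2 ⟨dB1, dB3⟩)] at eB
  have i1 := Finset.card_union_add_card_inter (CS σ l0 1) (CS σ l0 4)
  have i2 := Finset.card_union_add_card_inter (CS σ l0 1) (CS σ l0 3)
  have i3 : (CS σ l0 1 ∩ CS σ l0 4).card + (CS σ l0 1 ∩ CS σ l0 3).card ≤ (CS σ l0 1).card := by
    rw [← Finset.card_union_of_disjoint]
    · apply Finset.card_le_card
      intro x hx
      rw [Finset.mem_union, Finset.mem_inter, Finset.mem_inter] at hx
      rcases hx with hx | hx
      · exact hx.1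
      · exact hx.1
    · exact (d34.symm.mono Finset.inter_subset_right Finset.inter_subset_right)
  omega

theorem isLeast_value (w : ℕ) :
    IsLeast {c : ℕ | ∃ σ : List (Fin 5) → ℕ, Guarantees C5plus w c σ} (w + (w + 2) / 4) :=
  ⟨upper w, fun c ⟨σ, h⟩ => lower w c σ h⟩

end Pool.Agent.TokenGame
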