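import Mathlib

set_option autoImplicit false

/-!
The token colouring game of Spoiler against Algorithm on a known graph `G`.

A play is recorded by the list of the vertices on which the tokens were placed, the most recent
token first: `v :: l` is the play `l` followed by one more token on `v`.
-/

namespace Pool.Agent.TokenGame

variable {V : Type*}

/-- The token graph of the play `l`: its vertices are the tokens (the positions of `l`), and two
different tokens are adjacent when they lie on the same vertex or on adjacent vertices of `G`. -/
def tokenGraph (G : SimpleGraph V) (l : List V) : SimpleGraph (Fin l.length) where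
  Adj i j := i ≠ j ∧ (l.get i = l.get j ∨ G.Adj (l.get i) (l.get j))
  symm := ⟨fun _ _ h => ⟨h.1.symm, h.2.imp Eq.symm (fun h' => h'.symm)⟩⟩
  loopless := ⟨fun _ h => h.1 rfl⟩

/-- Spoiler's rule for width `w`: at every moment of the play `l` (after each token) the token
graph can be properly coloured with `w` colours, i.e. has chromatic number at most `w`. -/
def Legal (G : SimpleGraph V) (w : ℕ) (l : List V) : Prop :=
  ∀ k : ℕ, (tokenGraph G (l.drop k)).Colorable w

/-- A strategy of Algorithm is a function `σ` from plays to colours: `σ (v :: l)` is the colour
given, immediately and irrevocably, to the token put on `v` after the play `l`. The token at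
position `i` of the play `l` was the last token of the play `l.drop i`. -/
def colourOf (σ : List V → ℕ) (l : List V) (i : Fin l.length) : ℕ := σ (l.drop i)

/-- The strategy `σ` guarantees at most `c` colours against every Spoiler of width `w`: in every
legal play the colouring of the token graph is proper and uses at most `c` different colours. -/
def Guarantees (G : SimpleGraph V) (w c : ℕ) (σ : List V → ℕ) : Prop :=
  ∀ l : List V, Legal G w l →
    (∀ i j : Fin l.length, (tokenGraph G l).Adj i j → colourOf σ l i ≠ colourOf σ l j) ∧
      (Finset.univ.image (colourOf σ l)).card ≤ c

/-- `f(w, G)`: the least number of colours that Algorithm can guarantee to use. -/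
noncomputable def tokenValue (w : ℕ) (G : SimpleGraph V) : ℕ :=
  sInf {c : ℕ | ∃ σ : List V → ℕ, Guarantees G w c σ}

/-- The graph `C_5^+`: the vertices `0, 1, 2, 3, 4` stand for `v_1, ..., v_5`; the edges are
`v_i v_{i+1}` (indices mod 5) and the chord `v_1 v_3`. -/
def C5plus : SimpleGraph (Fin 5) :=
  SimpleGraph.fromRel (fun i j => j = i + 1 ∨ (i = 0 ∧ j = 2))

end Pool.Agent.TokenGame
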