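import Mathlib

set_option autoImplicit false

/-!
The numerical invariant behind Algorithm's strategy on the house graph. Here `x1, ..., x5` are the
numbers of tokens on the five vertices, listed along the path which is the complement of the house,
and `p, q, r, s` are the numbers of colours used on both ends of the four edges of that path.
-/

namespace Pool.Agent.TokenGame

/-- The numerical invariant. -/
structure NI (w g x1 x2 x3 x4 x5 p q r s : ℕ) : Prop where
  hp1 : p ≤ x1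
  hpq : p + q ≤ x2
  hqr : q + r ≤ x3
  hrs : r + s ≤ x4
  hs5 : s ≤ x5
  L1 : x1 = p ∨ x2 = p + q
  L5 : x5 = s ∨ x4 = r + s
  T23 : q ≤ g ∨ q + w ≤ g + (x2 + x3 + x5)
  T34 : r ≤ g ∨ r + w ≤ g + (x4 + x3 + x1)
  I23 : x2 = p + q ∨ x3 = q + r ∨ (g ≤ q ∧ (x2 ≤ p + q + g ∨ x2 + x3 + g ≤ w + q))
  I34 : x4 = r + s ∨ x3 = q + r ∨ (g ≤ r ∧ (x4 ≤ r + s + g ∨ x4 + x3 + g ≤ w + r))
  C : x1 + x2 + x3 + x4 + x5 ≤ w + g + p + q + r + s

/-- The four clique constraints. -/
def Feas (w x1 x2 x3 x4 x5 : ℕ) : Prop :=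
  x1 + x3 + x5 ≤ w ∧ x1 + x4 ≤ w ∧ x2 + x5 ≤ w ∧ x2 + x4 ≤ w

variable {w g x1 x2 x3 x4 x5 p q r s : ℕ}

theorem Feas.mirror (h : Feas w x1 x2 x3 x4 x5) : Feas w x5 x4 x3 x2 x1 := by
  obtain ⟨f1, f2, f3, f4⟩ := h
  exact ⟨by omega, by omega, by omega, by omega⟩

theorem NI.mirror (h : NI w g x1 x2 x3 x4 x5 p q r s) : NI w g x5 x4 x3 x2 x1 s r q p := by
  obtain ⟨h1, h2, h3, h4, h5, h6, h7, h8, h9, h10, h11, h12⟩ := h
  exact ⟨h5, by omega, by omega, by omega, h1, h7.imp id (fun h => by omega),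
    h6.imp id (fun h => by omega), h9.imp id (fun h => by omega), h8.imp id (fun h => by omega),
    h11.imp (fun h => by omega) (fun h => h.imp (fun h => by omega)
      (fun h => ⟨h.1, h.2.imp (fun h => by omega) (fun h => by omega)⟩)),
    h10.imp (fun h => by omega) (fun h => h.imp (fun h => by omega)
      (fun h => ⟨h.1, h.2.imp (fun h => by omega) (fun h => by omega)⟩)), by omega⟩

theorem NI.zero : NI w g 0 0 0 0 0 0 0 0 0 := by
  constructor <;> simp

theorem step1a (h : NI w g x1 x2 x3 x4 x5 p q r s) (hu : p + q < x2) :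
    NI w g (x1 + 1) x2 x3 x4 x5 (p + 1) q r s := by
  obtain ⟨h1, h2, h3, h4, h5, h6, h7, h8, h9, h10, h11, h12⟩ := h
  have e1 : x1 = p := by omega
  refine ⟨by omega, by omega, h3, h4, h5, Or.inl (by omega), h7, h8, ?_, ?_, h11, by omega⟩
  · exact h9.imp id (fun h => by omega)
  · rcases h10 with h | h | ⟨h, h' | h'⟩
    · omega
    · exact Or.inr (Or.inl h)
    · exact Or.inr (Or.inr ⟨h, Or.inl (by omega)⟩)
    · exact Or.inr (Or.inr ⟨h, Or.inr (by omega)⟩)

theorem step1b (hw : w ≤ 4 * g + 1) (h : NI w g x1 x2 x3 x4 x5 p q r s)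
    (hf : Feas w (x1 + 1) x2 x3 x4 x5) (hu : x2 = p + q) :
    NI w g (x1 + 1) x2 x3 x4 x5 p q r s := by
  obtain ⟨h1, h2, h3, h4, h5, h6, h7, h8, h9, h10, h11, h12⟩ := h
  obtain ⟨f1, f2, f3, f4⟩ := hf
  refine ⟨by omega, by omega, h3, h4, h5, Or.inr hu, h7, h8, ?_, Or.inl hu, h11, ?_⟩
  · exact h9.imp id (fun h => by omega)
  · clear h12 h10 h9 h6
    rcases h7 with h7 | h7
    · rcases h11 with h | h | ⟨h, h' | h'⟩
      · clear h8; omega
      · rcases h8 with h8 | h8 <;> omega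
      · clear h8; omega
      · clear h8
        by_cases hc : x4 ≤ r + s + g
        · omega
        · omega
    · clear h8 h11; omega

theorem step2a (h : NI w g x1 x2 x3 x4 x5 p q r s) (hu : p < x1) :
    NI w g x1 (x2 + 1) x3 x4 x5 (p + 1) q r s := by
  obtain ⟨h1, h2, h3, h4, h5, h6, h7, h8, h9, h10, h11, h12⟩ := h
  have e2 : x2 = p + q := by omega
  exact ⟨by omega, by omega, h3, h4, h5, Or.inr (by omega), h7, h8.imp id (fun h => by omega), h9,
    Or.inl (by omega), h11, by omega⟩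

theorem step2b (h : NI w g x1 x2 x3 x4 x5 p q r s) (hu : x1 = p) (hu3 : q + r < x3)
    (ht : q < g ∨ q + w < g + (x2 + 1 + x3 + x5)) :
    NI w g x1 (x2 + 1) x3 x4 x5 p (q + 1) r s := by
  obtain ⟨h1, h2, h3, h4, h5, h6, h7, h8, h9, h10, h11, h12⟩ := h
  refine ⟨h1, by omega, by omega, h4, h5, Or.inl hu, h7, ht.imp (fun h => by omega)
    (fun h => by omega), h9, ?_, ?_, by omega⟩
  · rcases h10 with h | h | ⟨h, h' | h'⟩
    · exact Or.inl (by omega)
    · omega
    · exact Or.inr (Or.inr ⟨by omega, Or.inl (by omega)⟩)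
    · exact Or.inr (Or.inr ⟨by omega, Or.inr (by omega)⟩)
  · rcases h11 with h | h | h
    · exact Or.inl h
    · omega
    · exact Or.inr (Or.inr h)

theorem step2c (hw : w ≤ 4 * g + 1) (h : NI w g x1 x2 x3 x4 x5 p q r s)
    (hf : Feas w x1 (x2 + 1) x3 x4 x5) (hu : x1 = p)
    (hu3 : x3 = q + r ∨ ¬ (q < g ∨ q + w < g + (x2 + 1 + x3 + x5))) :
    NI w g x1 (x2 + 1) x3 x4 x5 p q r s := by
  obtain ⟨h1, h2, h3, h4, h5, h6, h7, h8, h9, h10, h11, h12⟩ := h
  obtain ⟨f1, f2, f3, f4⟩ := hf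
  refine ⟨h1, by omega, h3, h4, h5, Or.inl hu, h7, h8.imp id (fun h => by omega), h9, ?_, h11, ?_⟩
  · rcases hu3 with h | h
    · exact Or.inr (Or.inl h)
    · rw [not_or] at h
      exact Or.inr (Or.inr ⟨by omega, Or.inr (by omega)⟩)
  · clear h12 h10 h8 h6
    rcases hu3 with h | h
    · rcases h7 with h7 | h7
      · clear h9 h11; omega
      · rcases h9 with h9 | h9 <;> omega
    · rw [not_or] at h
      obtain ⟨ha, hb⟩ := h
      rcases h11 with h | h | ⟨h, -⟩
      · clear h7 h9; omega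
      · rcases h7 with h7 | h7
        · clear h9; omega
        · rcases h9 with h9 | h9 <;> omega
      · clear h7 h9; omega

theorem step3a (hw : w ≤ 4 * g + 1) (h : NI w g x1 x2 x3 x4 x5 p q r s)
    (hf : Feas w x1 x2 (x3 + 1) x4 x5) (hu2 : p + q < x2)
    (ht : q < g ∨ q + w < g + (x2 + (x3 + 1) + x5)) :
    NI w g x1 x2 (x3 + 1) x4 x5 p (q + 1) r s := by
  obtain ⟨h1, h2, h3, h4, h5, h6, h7, h8, h9, h10, h11, h12⟩ := h
  obtain ⟨f1, f2, f3, f4⟩ := hf
  have e1 : x1 = p := by omega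
  refine ⟨h1, by omega, by omega, h4, h5, Or.inl e1, h7, ht.imp (fun h => by omega)
    (fun h => by omega), h9.imp id (fun h => by omega), ?_, ?_, by omega⟩
  · rcases h10 with h | h | ⟨h, h' | h'⟩
    · omega
    · exact Or.inr (Or.inl (by omega))
    · exact Or.inr (Or.inr ⟨by omega, Or.inl (by omega)⟩)
    · exact Or.inr (Or.inr ⟨by omega, Or.inr (by omega)⟩)
  · rcases h11 with h | h | ⟨h, h' | h'⟩
    · exact Or.inl h
    · exact Or.inr (Or.inl (by omega))
    · exact Or.inr (Or.inr ⟨h, Or.inl h'⟩)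
    · by_cases hc : x4 ≤ r + s + g
      · exact Or.inr (Or.inr ⟨h, Or.inl hc⟩)
      · have e5 : x5 = s := by omega
        rcases h10 with k | k | ⟨k, -⟩
        · omega
        · exact Or.inr (Or.inl (by omega))
        · exfalso
          rcases ht with ht | ht
          · omega
          · clear h8 h9 h12 h7 h6; omega

theorem step3c (hw : w ≤ 4 * g + 1) (h : NI w g x1 x2 x3 x4 x5 p q r s)
    (hf : Feas w x1 x2 (x3 + 1) x4 x5)
    (hu2 : x2 = p + q ∨ ¬ (q < g ∨ q + w < g + (x2 + (x3 + 1) + x5)))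
    (hu4 : x4 = r + s ∨ ¬ (r < g ∨ r + w < g + (x4 + (x3 + 1) + x1))) :
    NI w g x1 x2 (x3 + 1) x4 x5 p q r s := by
  obtain ⟨h1, h2, h3, h4, h5, h6, h7, h8, h9, h10, h11, h12⟩ := h
  obtain ⟨f1, f2, f3, f4⟩ := hf
  refine ⟨h1, h2, by omega, h4, h5, h6, h7, h8.imp id (fun h => by omega),
    h9.imp id (fun h => by omega), ?_, ?_, ?_⟩
  · rcases hu2 with h | h
    · exact Or.inl h
    · rw [not_or] at h
      exact Or.inr (Or.inr ⟨by omega, Or.inr (by omega)⟩)
  · rcases hu4 with h | h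
    · exact Or.inl h
    · rw [not_or] at h
      exact Or.inr (Or.inr ⟨by omega, Or.inr (by omega)⟩)
  · clear h12 h10 h11 h8 h9
    by_cases c2 : x2 = p + q
    · by_cases c4 : x4 = r + s
      · omega
      · have e5 : x5 = s := by omega
        have h := hu4.resolve_left c4
        rw [not_or] at h
        obtain ⟨ha, hb⟩ := h
        clear hu2 hu4 h6 h7
        omega
    · have e1 : x1 = p := by omega
      have h := hu2.resolve_left c2
      rw [not_or] at h
      obtain ⟨ha, hb⟩ := h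
      clear hu2 h6
      by_cases c4 : x4 = r + s
      · clear hu4 h7; omega
      · have h := hu4.resolve_left c4
        rw [not_or] at h
        obtain ⟨hc, hd⟩ := h
        clear hu4 h7
        omega

end Pool.Agent.TokenGame
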