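import Pool.Agent.TokenGame.Defs

set_option autoImplicit false

/-! General facts on strategies in the token game. -/

namespace Pool.Agent.TokenGame

variable {V : Type*}

/-- The tokens of a play together with the colours given by `σ`. -/
def run (σ : List V → ℕ) : List V → List (V × ℕ)
  | [] => []
  | v :: l => (v, σ (v :: l)) :: run σ l

theorem run_length (σ : List V → ℕ) (l : List V) : (run σ l).length = l.length := by
  induction l with
  | nil => rfl
  | cons v l ih => simp [run, ih]

theorem run_fst (σ : List V → ℕ) (l : List V) : (run σ l).map Prod.fst = l := by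
  induction l with
  | nil => rfl
  | cons v l ih => simp [run, ih]

theorem run_getElem (σ : List V → ℕ) (l : List V) (i : ℕ) (hi : i < l.length) :
    (run σ l)[i]'(by rw [run_length]; exact hi) = (l[i], σ (l.drop i)) := by
  induction l generalizing i with
  | nil => simp at hi
  | cons v l ih =>
    cases i with
    | zero => simp [run]
    | succ i =>
      simp only [run, List.getElem_cons_succ, List.drop_succ_cons]
      exact ih i (by simpa using hi)

theorem mem_run_iff (σ : List V → ℕ) (l : List V) (v : V) (c : ℕ) :
    (v, c) ∈ run σ l ↔ ∃ i : Fin l.length, l.get i = v ∧ colourOf σ l i = c := by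
  rw [List.mem_iff_getElem]
  constructor
  · rintro ⟨i, hi, h⟩
    have hi' : i < l.length := by rw [run_length] at hi; exact hi
    rw [run_getElem σ l i hi'] at h
    exact ⟨⟨i, hi'⟩, congrArg Prod.fst h, congrArg Prod.snd h⟩
  · rintro ⟨i, h1, h2⟩
    refine ⟨i, by rw [run_length]; exact i.2, ?_⟩
    rw [run_getElem σ l i i.2]
    exact Prod.ext h1 h2

section Exists

open Classical in
/-- A history built by choices which keep the invariant whenever this is possible. -/
noncomputable def hist (Inv : List (V × ℕ) → Prop) : List V → List (V × ℕ)
  | [] => []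
  | v :: l => (v, if hc : ∃ c, Inv ((v, c) :: hist Inv l) then hc.choose else 0) :: hist Inv l

open Classical in
/-- The corresponding strategy. -/
noncomputable def strat (Inv : List (V × ℕ) → Prop) : List V → ℕ
  | [] => 0
  | v :: l => if hc : ∃ c, Inv ((v, c) :: hist Inv l) then hc.choose else 0

theorem run_strat (Inv : List (V × ℕ) → Prop) (l : List V) : run (strat Inv) l = hist Inv l := by
  induction l with
  | nil => rfl
  | cons v l ih => rw [run, ih]; rfl

/-- If an invariant of histories can be kept at each legal move, then some strategy keeps it. -/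
theorem exists_strategy (Ok : List V → Prop) (Inv : List (V × ℕ) → Prop) (h0 : Inv [])
    (hOk : ∀ v l, Ok (v :: l) → Ok l)
    (hstep : ∀ (h : List (V × ℕ)) (v : V), Inv h → Ok (v :: h.map Prod.fst) →
      ∃ c, Inv ((v, c) :: h)) :
    ∃ σ : List V → ℕ, ∀ l, Ok l → Inv (run σ l) := by
  refine ⟨strat Inv, fun l => ?_⟩
  induction l with
  | nil => intro _; exact h0
  | cons v l ih =>
    intro hl
    have hi := ih (hOk v l hl)
    have hex : ∃ c, Inv ((v, c) :: hist Inv l) := by
      rw [← run_strat]
      apply hstep _ v hi
      rw [run_fst]
      exact hl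
    rw [run_strat, hist, dif_pos hex]
    exact hex.choose_spec

end Exists

theorem Legal.tail {G : SimpleGraph V} {w : ℕ} {v : V} {l : List V} (h : Legal G w (v :: l)) :
    Legal G w l := fun k => h (k + 1)

theorem Legal.colorable {G : SimpleGraph V} {w : ℕ} {l : List V} (h : Legal G w l) :
    (tokenGraph G l).Colorable w := h 0

variable [DecidableEq V]

theorem card_filter_get (l : List V) (v : V) :
    (Finset.univ.filter (fun i : Fin l.length => l.get i = v)).card = l.count v := by
  conv_rhs => rw [← List.ofFn_get l]
  rw [← Multiset.coe_count, ← Fin.univ_val_map, Multiset.count_map]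
  simp only [Finset.card, Finset.filter_val]
  congr 1
  apply Multiset.filter_congr
  intro i _
  exact eq_comm

theorem clique_bound {G : SimpleGraph V} {l : List V} {w : ℕ} (hl : (tokenGraph G l).Colorable w)
    (K : Finset V) (hK : G.IsClique (K : Set V)) : ∑ v ∈ K, l.count v ≤ w := by
  have h1 : ∑ v ∈ K, l.count v =
      (Finset.univ.filter (fun i : Fin l.length => l.get i ∈ K)).card := by
    rw [Finset.card_eq_sum_card_fiberwise (f := l.get) (t := K)]
    · apply Finset.sum_congr rfl
      intro v hv
      rw [← card_filter_get]
      congr 1
      ext i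
      simp only [Finset.mem_filter, Finset.mem_univ, true_and]
      constructor
      · intro h; exact ⟨h ▸ hv, h⟩
      · exact fun h => h.2
    · intro i hi
      simpa using hi
  rw [h1]
  apply SimpleGraph.IsClique.card_le_of_colorable _ hl
  intro i hi j hj hij
  simp only [Finset.coe_filter, Finset.mem_univ, true_and, Set.mem_ofPred_eq] at hi hj
  refine ⟨hij, ?_⟩
  by_cases h : l.get i = l.get j
  · exact Or.inl h
  · exact Or.inr (hK hi hj h)

end Pool.Agent.TokenGame
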