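import Pool.Agent.TokenGame.Strategy
import Pool.Agent.TokenGame.Numeric

set_option autoImplicit false

/-! Algorithm's strategy on the house graph. -/

namespace Pool.Agent.TokenGame

/-- The complement of `C5plus` is the path `0 - 3 - 1 - 4 - 2`. -/
theorem C5plus_adj_iff (u v : Fin 5) : C5plus.Adj u v ↔
    (u = 0 ∧ v = 1) ∨ (u = 1 ∧ v = 0) ∨ (u = 1 ∧ v = 2) ∨ (u = 2 ∧ v = 1) ∨ (u = 2 ∧ v = 3) ∨
    (u = 3 ∧ v = 2) ∨ (u = 3 ∧ v = 4) ∨ (u = 4 ∧ v = 3) ∨ (u = 4 ∧ v = 0) ∨ (u = 0 ∧ v = 4) ∨
    (u = 0 ∧ v = 2) ∨ (u = 2 ∧ v = 0) := by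
  simp only [C5plus, SimpleGraph.fromRel_adj]
  revert u v
  decide

instance : DecidableRel C5plus.Adj := fun u v => decidable_of_iff' _ (C5plus_adj_iff u v)

theorem feas_of_colorable {w : ℕ} {l : List (Fin 5)} (hl : (tokenGraph C5plus l).Colorable w) :
    Feas w (l.count 0) (l.count 3) (l.count 1) (l.count 4) (l.count 2) := by
  have c1 := clique_bound hl {0, 1, 2} (by
    intro a ha b hb hab
    rw [C5plus_adj_iff]
    simp only [Finset.coe_insert, Finset.coe_singleton, Set.mem_insert_iff,
      Set.mem_singleton_iff] at ha hb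
    revert a b; decide)
  have c2 := clique_bound hl {0, 4} (by
    intro a ha b hb hab
    rw [C5plus_adj_iff]
    simp only [Finset.coe_insert, Finset.coe_singleton, Set.mem_insert_iff,
      Set.mem_singleton_iff] at ha hb
    revert a b; decide)
  have c3 := clique_bound hl {3, 2} (by
    intro a ha b hb hab
    rw [C5plus_adj_iff]
    simp only [Finset.coe_insert, Finset.coe_singleton, Set.mem_insert_iff,
      Set.mem_singleton_iff] at ha hb
    revert a b; decide)
  have c4 := clique_bound hl {3, 4} (by
    intro a ha b hb hab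
    rw [C5plus_adj_iff]
    simp only [Finset.coe_insert, Finset.coe_singleton, Set.mem_insert_iff,
      Set.mem_singleton_iff] at ha hb
    revert a b; decide)
  rw [Finset.sum_insert (by decide), Finset.sum_insert (by decide), Finset.sum_singleton] at c1
  rw [Finset.sum_insert (by decide), Finset.sum_singleton] at c2 c3 c4
  exact ⟨by omega, c2, c3, c4⟩

/-- The colour sets `C v` describe the history `h` and the colouring is proper. -/
structure Basic (h : List (Fin 5 × ℕ)) (C : Fin 5 → Finset ℕ) : Prop where
  mem : ∀ v c, (v, c) ∈ h ↔ c ∈ C v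
  nodup : h.Nodup
  count : ∀ v, (h.map Prod.fst).count v = (C v).card
  disj : ∀ u v, C5plus.Adj u v → Disjoint (C u) (C v)

theorem Basic.cons {h : List (Fin 5 × ℕ)} {C : Fin 5 → Finset ℕ} (hb : Basic h C) (v : Fin 5)
    (c : ℕ) (hc : c ∉ C v) (hadj : ∀ u, C5plus.Adj v u → c ∉ C u) :
    Basic ((v, c) :: h) (Function.update C v (insert c (C v))) where
  mem := by
    intro u d
    by_cases huv : u = v
    · subst huv
      simp only [List.mem_cons, Prod.mk.injEq, true_and, Function.update_self, Finset.mem_insert,
        hb.mem]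
    · simp only [List.mem_cons, Prod.mk.injEq, huv, false_and, false_or, hb.mem, ne_eq,
        not_false_eq_true, Function.update_of_ne]
  nodup := by
    rw [List.nodup_cons]
    exact ⟨fun h => hc ((hb.mem v c).1 h), hb.nodup⟩
  count := by
    intro u
    by_cases huv : u = v
    · subst huv
      simp only [List.map_cons, List.count_cons_self, Function.update_self, hb.count,
        Finset.card_insert_of_notMem hc]
    · simp only [List.map_cons, ne_eq, huv, not_false_eq_true, Function.update_of_ne]
      rw [List.count_cons_of_ne (fun h => huv h.symm), hb.count]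
  disj := by
    intro a b hab
    by_cases hav : a = v
    · subst hav
      have hne : b ≠ a := hab.ne'
      rw [Function.update_self, Function.update_of_ne hne, Finset.disjoint_insert_left]
      exact ⟨hadj b hab, hb.disj a b hab⟩
    · rw [Function.update_of_ne hav]
      by_cases hbv : b = v
      · subst hbv
        rw [Function.update_self, Finset.disjoint_insert_right]
        exact ⟨hadj a hab.symm, hb.disj a b hab⟩
      · rw [Function.update_of_ne hbv]
        exact hb.disj a b hab

/-- The numerical part of the invariant, read off from the colour sets. -/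
def Num (w g : ℕ) (C : Fin 5 → Finset ℕ) : Prop :=
  NI w g (C 0).card (C 3).card (C 1).card (C 4).card (C 2).card
    (C 0 ∩ C 3).card (C 3 ∩ C 1).card (C 1 ∩ C 4).card (C 4 ∩ C 2).card

/-- The invariant kept by Algorithm. -/
def HInv (w g : ℕ) (h : List (Fin 5 × ℕ)) : Prop :=
  ∃ C : Fin 5 → Finset ℕ, Basic h C ∧ Num w g C

theorem HInv.nil (w g : ℕ) : HInv w g [] := by
  refine ⟨fun _ => ∅, ⟨by simp, List.nodup_nil, by simp, by simp⟩, ?_⟩
  simpa [Num] using (NI.zero : NI w g 0 0 0 0 0 0 0 0 0)

/-- There is a colour used nowhere. -/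
theorem exists_fresh (C : Fin 5 → Finset ℕ) : ∃ c, ∀ u, c ∉ C u := by
  obtain ⟨c, hc⟩ := Infinite.exists_notMem_finset (Finset.univ.biUnion C)
  refine ⟨c, fun u hu => hc ?_⟩
  rw [Finset.mem_biUnion]
  exact ⟨u, Finset.mem_univ u, hu⟩

theorem exists_diff (A B D : Finset ℕ) (h : (A ∩ B).card + (A ∩ D).card < A.card) :
    ∃ c ∈ A, c ∉ B ∧ c ∉ D := by
  by_contra hcon
  push Not at hcon
  have : A ⊆ (A ∩ B) ∪ (A ∩ D) := by
    intro c hc
    by_cases hB : c ∈ B
    · exact Finset.mem_union_left _ (Finset.mem_inter.2 ⟨hc, hB⟩)
    · exact Finset.mem_union_right _ (Finset.mem_inter.2 ⟨hc, hcon c hc hB⟩)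
  have h1 := Finset.card_le_card this
  have h2 := Finset.card_union_le (A ∩ B) (A ∩ D)
  omega

theorem notMem_of_disj {A B : Finset ℕ} (h : Disjoint A B) {c : ℕ} (hc : c ∈ A) : c ∉ B :=
  fun hB => Finset.disjoint_left.1 h hc hB

theorem card_insert_inter_mem {A B : Finset ℕ} {c : ℕ} (hA : c ∉ A) (hB : c ∈ B) :
    (insert c A ∩ B).card = (A ∩ B).card + 1 := by
  rw [Finset.insert_inter_of_mem hB, Finset.card_insert_of_notMem]
  exact fun h => hA (Finset.mem_inter.1 h).1

theorem card_insert_inter_notMem {A B : Finset ℕ} {c : ℕ} (hB : c ∉ B) :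
    (insert c A ∩ B).card = (A ∩ B).card := by
  rw [Finset.insert_inter_of_notMem hB]

theorem card_inter_insert_mem {A B : Finset ℕ} {c : ℕ} (hA : c ∉ A) (hB : c ∈ B) :
    (B ∩ insert c A).card = (B ∩ A).card + 1 := by
  rw [Finset.inter_comm, card_insert_inter_mem hA hB, Finset.inter_comm]

theorem card_inter_insert_notMem {A B : Finset ℕ} {c : ℕ} (hB : c ∉ B) :
    (B ∩ insert c A).card = (B ∩ A).card := by
  rw [Finset.inter_comm, card_insert_inter_notMem hB, Finset.inter_comm]

theorem five_cases (v : Fin 5) : v = 0 ∨ v = 3 ∨ v = 1 ∨ v = 4 ∨ v = 2 := by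
  revert v; decide

theorem HInv.step {w g : ℕ} (hw : w ≤ 4 * g + 1) {h : List (Fin 5 × ℕ)} {v : Fin 5}
    (hi : HInv w g h) (hl : (tokenGraph C5plus (v :: h.map Prod.fst)).Colorable w) :
    ∃ c, HInv w g ((v, c) :: h) := by
  obtain ⟨C, hb, hn⟩ := hi
  have hf := feas_of_colorable hl
  have d01 := hb.disj 0 1 (by decide)
  have d12 := hb.disj 1 2 (by decide)
  have d23 := hb.disj 2 3 (by decide)
  have d34 := hb.disj 3 4 (by decide)
  have d40 := hb.disj 4 0 (by decide)
  have d02 := hb.disj 0 2 (by decide)
  have k0 := hb.count 0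
  have k1 := hb.count 1
  have k2 := hb.count 2
  have k3 := hb.count 3
  have k4 := hb.count 4
  have n30 : (3 : Fin 5) ≠ 0 := by decide
  have n10 : (1 : Fin 5) ≠ 0 := by decide
  have n40 : (4 : Fin 5) ≠ 0 := by decide
  have n20 : (2 : Fin 5) ≠ 0 := by decide
  have n03 : (0 : Fin 5) ≠ 3 := by decide
  have n13 : (1 : Fin 5) ≠ 3 := by decide
  have n43 : (4 : Fin 5) ≠ 3 := by decide
  have n23 : (2 : Fin 5) ≠ 3 := by decide
  have n01 : (0 : Fin 5) ≠ 1 := by decide
  have n31 : (3 : Fin 5) ≠ 1 := by decide
  have n41 : (4 : Fin 5) ≠ 1 := by decide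
  have n21 : (2 : Fin 5) ≠ 1 := by decide
  have n04 : (0 : Fin 5) ≠ 4 := by decide
  have n34 : (3 : Fin 5) ≠ 4 := by decide
  have n14 : (1 : Fin 5) ≠ 4 := by decide
  have n24 : (2 : Fin 5) ≠ 4 := by decide
  have n02 : (0 : Fin 5) ≠ 2 := by decide
  have n32 : (3 : Fin 5) ≠ 2 := by decide
  have n12 : (1 : Fin 5) ≠ 2 := by decide
  have n42 : (4 : Fin 5) ≠ 2 := by decide
  obtain ⟨cf, hcf⟩ := exists_fresh C
  unfold Num at hn
  have c30 : (C 3 ∩ C 0).card = (C 0 ∩ C 3).card := by rw [Finset.inter_comm]
  have c13 : (C 1 ∩ C 3).card = (C 3 ∩ C 1).card := by rw [Finset.inter_comm]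
  have c41 : (C 4 ∩ C 1).card = (C 1 ∩ C 4).card := by rw [Finset.inter_comm]
  have c24 : (C 2 ∩ C 4).card = (C 4 ∩ C 2).card := by rw [Finset.inter_comm]
  rcases five_cases v with rfl | rfl | rfl | rfl | rfl
  · -- a token on the end vertex 0 of the path
    rw [List.count_cons_self, List.count_cons_of_ne n03, List.count_cons_of_ne n01,
      List.count_cons_of_ne n04, List.count_cons_of_ne n02, k0, k1, k2, k3, k4] at hf
    by_cases hu : (C 0 ∩ C 3).card + (C 3 ∩ C 1).card < (C 3).card
    · obtain ⟨c, hc3, hc0, hc1⟩ := exists_diff (C 3) (C 0) (C 1) (by omega)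
      have hall : ∀ u, u ≠ 3 → c ∉ C u := by
        intro u hu
        rcases five_cases u with rfl | rfl | rfl | rfl | rfl
        exacts [hc0, absurd rfl hu, hc1, notMem_of_disj d34 hc3, notMem_of_disj d23.symm hc3]
      refine ⟨c, _, hb.cons 0 c hc0 (fun u hu => hall u (by rintro rfl; revert hu; decide)), ?_⟩
      unfold Num
      simp only [Function.update_self, Function.update_of_ne n30, Function.update_of_ne n10,
        Function.update_of_ne n40, Function.update_of_ne n20]
      rw [Finset.card_insert_of_notMem hc0, card_insert_inter_mem hc0 hc3]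
      exact step1a hn hu
    · refine ⟨cf, _, hb.cons 0 cf (hcf 0) (fun u _ => hcf u), ?_⟩
      unfold Num
      simp only [Function.update_self, Function.update_of_ne n30, Function.update_of_ne n10,
        Function.update_of_ne n40, Function.update_of_ne n20]
      rw [Finset.card_insert_of_notMem (hcf 0), card_insert_inter_notMem (hcf 3)]
      exact step1b hw hn hf (by have := hn.hpq; omega)
  · -- a token on the second vertex 3 of the path
    rw [List.count_cons_self, List.count_cons_of_ne n30, List.count_cons_of_ne n31,
      List.count_cons_of_ne n34, List.count_cons_of_ne n32, k0, k1, k2, k3, k4] at hf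
    by_cases hu : (C 0 ∩ C 3).card < (C 0).card
    · obtain ⟨c, hc0, hc3, -⟩ := exists_diff (C 0) (C 3) ∅ (by simpa using hu)
      have hall : ∀ u, u ≠ 0 → c ∉ C u := by
        intro u hu
        rcases five_cases u with rfl | rfl | rfl | rfl | rfl
        exacts [absurd rfl hu, hc3, notMem_of_disj d01 hc0, notMem_of_disj d40.symm hc0,
          notMem_of_disj d02 hc0]
      refine ⟨c, _, hb.cons 3 c hc3 (fun u hu => hall u (by rintro rfl; revert hu; decide)), ?_⟩
      unfold Num
      simp only [Function.update_self, Function.update_of_ne n03, Function.update_of_ne n13,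
        Function.update_of_ne n43, Function.update_of_ne n23]
      rw [Finset.card_insert_of_notMem hc3, card_inter_insert_mem hc3 hc0,
        card_insert_inter_notMem (hall 1 n10)]
      exact step2a hn hu
    · have hp : (C 0).card = (C 0 ∩ C 3).card := by have := hn.hp1; omega
      by_cases hm : (C 3 ∩ C 1).card + (C 1 ∩ C 4).card < (C 1).card ∧
          ((C 3 ∩ C 1).card < g ∨
            (C 3 ∩ C 1).card + w < g + ((C 3).card + 1 + (C 1).card + (C 2).card))
      · obtain ⟨c, hc1, hc3, hc4⟩ := exists_diff (C 1) (C 3) (C 4) (by omega)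
        have hall : ∀ u, u ≠ 1 → c ∉ C u := by
          intro u hu
          rcases five_cases u with rfl | rfl | rfl | rfl | rfl
          exacts [notMem_of_disj d01.symm hc1, hc3, absurd rfl hu, hc4, notMem_of_disj d12 hc1]
        refine ⟨c, _, hb.cons 3 c hc3
          (fun u hu => hall u (by rintro rfl; revert hu; decide)), ?_⟩
        unfold Num
        simp only [Function.update_self, Function.update_of_ne n03, Function.update_of_ne n13,
          Function.update_of_ne n43, Function.update_of_ne n23]
        rw [Finset.card_insert_of_notMem hc3, card_inter_insert_notMem (hall 0 n01),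
          card_insert_inter_mem hc3 hc1]
        exact step2b hn hp hm.1 hm.2
      · refine ⟨cf, _, hb.cons 3 cf (hcf 3) (fun u _ => hcf u), ?_⟩
        unfold Num
        simp only [Function.update_self, Function.update_of_ne n03, Function.update_of_ne n13,
          Function.update_of_ne n43, Function.update_of_ne n23]
        rw [Finset.card_insert_of_notMem (hcf 3), card_inter_insert_notMem (hcf 0),
          card_insert_inter_notMem (hcf 1)]
        refine step2c hw hn hf hp ?_
        rw [not_and_or] at hm
        exact hm.imp (fun h => by have := hn.hqr; omega) id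
  · -- a token on the middle vertex 1 of the path
    rw [List.count_cons_self, List.count_cons_of_ne n10, List.count_cons_of_ne n13,
      List.count_cons_of_ne n14, List.count_cons_of_ne n12, k0, k1, k2, k3, k4] at hf
    by_cases hm : (C 0 ∩ C 3).card + (C 3 ∩ C 1).card < (C 3).card ∧
        ((C 3 ∩ C 1).card < g ∨
          (C 3 ∩ C 1).card + w < g + ((C 3).card + ((C 1).card + 1) + (C 2).card))
    · obtain ⟨c, hc3, hc0, hc1⟩ := exists_diff (C 3) (C 0) (C 1) (by omega)
      have hall : ∀ u, u ≠ 3 → c ∉ C u := by
        intro u hu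
        rcases five_cases u with rfl | rfl | rfl | rfl | rfl
        exacts [hc0, absurd rfl hu, hc1, notMem_of_disj d34 hc3, notMem_of_disj d23.symm hc3]
      refine ⟨c, _, hb.cons 1 c hc1 (fun u hu => hall u (by rintro rfl; revert hu; decide)), ?_⟩
      unfold Num
      simp only [Function.update_self, Function.update_of_ne n01, Function.update_of_ne n31,
        Function.update_of_ne n41, Function.update_of_ne n21]
      rw [Finset.card_insert_of_notMem hc1, card_inter_insert_mem hc1 hc3,
        card_insert_inter_notMem (hall 4 n43)]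
      exact step3a hw hn hf hm.1 hm.2
    · by_cases hm' : (C 1 ∩ C 4).card + (C 4 ∩ C 2).card < (C 4).card ∧
        ((C 1 ∩ C 4).card < g ∨
          (C 1 ∩ C 4).card + w < g + ((C 4).card + ((C 1).card + 1) + (C 0).card))
      · obtain ⟨c, hc4, hc1, hc2⟩ := exists_diff (C 4) (C 1) (C 2) (by omega)
        have hall : ∀ u, u ≠ 4 → c ∉ C u := by
          intro u hu
          rcases five_cases u with rfl | rfl | rfl | rfl | rfl
          exacts [notMem_of_disj d40 hc4, notMem_of_disj d34.symm hc4, hc1, absurd rfl hu, hc2]
        refine ⟨c, _, hb.cons 1 c hc1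
          (fun u hu => hall u (by rintro rfl; revert hu; decide)), ?_⟩
        unfold Num
        simp only [Function.update_self, Function.update_of_ne n01, Function.update_of_ne n31,
          Function.update_of_ne n41, Function.update_of_ne n21]
        rw [Finset.card_insert_of_notMem hc1, card_inter_insert_notMem (hall 3 n34),
          card_insert_inter_mem hc1 hc4]
        exact (step3a hw hn.mirror hf.mirror (by have := hm'.1; omega) hm'.2).mirror
      · refine ⟨cf, _, hb.cons 1 cf (hcf 1) (fun u _ => hcf u), ?_⟩
        unfold Num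
        simp only [Function.update_self, Function.update_of_ne n01, Function.update_of_ne n31,
          Function.update_of_ne n41, Function.update_of_ne n21]
        rw [Finset.card_insert_of_notMem (hcf 1), card_inter_insert_notMem (hcf 3),
          card_insert_inter_notMem (hcf 4)]
        rw [not_and_or] at hm hm'
        exact step3c hw hn hf (hm.imp (fun h => by have := hn.hpq; omega) id)
          (hm'.imp (fun h => by have := hn.hrs; omega) id)
  · -- a token on the fourth vertex 4 of the path
    rw [List.count_cons_self, List.count_cons_of_ne n40, List.count_cons_of_ne n43,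
      List.count_cons_of_ne n41, List.count_cons_of_ne n42, k0, k1, k2, k3, k4] at hf
    by_cases hu : (C 4 ∩ C 2).card < (C 2).card
    · obtain ⟨c, hc2, hc4, -⟩ := exists_diff (C 2) (C 4) ∅ (by rw [c24]; simpa using hu)
      have hall : ∀ u, u ≠ 2 → c ∉ C u := by
        intro u hu
        rcases five_cases u with rfl | rfl | rfl | rfl | rfl
        exacts [notMem_of_disj d02.symm hc2, notMem_of_disj d23 hc2, notMem_of_disj d12.symm hc2,
          hc4, absurd rfl hu]
      refine ⟨c, _, hb.cons 4 c hc4 (fun u hu => hall u (by rintro rfl; revert hu; decide)), ?_⟩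
      unfold Num
      simp only [Function.update_self, Function.update_of_ne n04, Function.update_of_ne n14,
        Function.update_of_ne n34, Function.update_of_ne n24]
      rw [Finset.card_insert_of_notMem hc4, card_insert_inter_mem hc4 hc2,
        card_inter_insert_notMem (hall 1 n12)]
      exact (step2a hn.mirror hu).mirror
    · have hp : (C 2).card = (C 4 ∩ C 2).card := by have := hn.hs5; omega
      by_cases hm : (C 3 ∩ C 1).card + (C 1 ∩ C 4).card < (C 1).card ∧
          ((C 1 ∩ C 4).card < g ∨
            (C 1 ∩ C 4).card + w < g + ((C 4).card + 1 + (C 1).card + (C 0).card))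
      · obtain ⟨c, hc1, hc3, hc4⟩ := exists_diff (C 1) (C 3) (C 4) (by omega)
        have hall : ∀ u, u ≠ 1 → c ∉ C u := by
          intro u hu
          rcases five_cases u with rfl | rfl | rfl | rfl | rfl
          exacts [notMem_of_disj d01.symm hc1, hc3, absurd rfl hu, hc4, notMem_of_disj d12 hc1]
        refine ⟨c, _, hb.cons 4 c hc4
          (fun u hu => hall u (by rintro rfl; revert hu; decide)), ?_⟩
        unfold Num
        simp only [Function.update_self, Function.update_of_ne n04, Function.update_of_ne n14,
          Function.update_of_ne n34, Function.update_of_ne n24]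
        rw [Finset.card_insert_of_notMem hc4, card_insert_inter_notMem (hall 2 n21),
          card_inter_insert_mem hc4 hc1]
        exact (step2b hn.mirror hp (by have := hm.1; omega) hm.2).mirror
      · refine ⟨cf, _, hb.cons 4 cf (hcf 4) (fun u _ => hcf u), ?_⟩
        unfold Num
        simp only [Function.update_self, Function.update_of_ne n04, Function.update_of_ne n14,
          Function.update_of_ne n34, Function.update_of_ne n24]
        rw [Finset.card_insert_of_notMem (hcf 4), card_insert_inter_notMem (hcf 2),
          card_inter_insert_notMem (hcf 1)]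
        refine (step2c hw hn.mirror hf.mirror hp ?_).mirror
        rw [not_and_or] at hm
        exact hm.imp (fun h => by have := hn.hqr; omega) id
  · -- a token on the end vertex 2 of the path
    rw [List.count_cons_self, List.count_cons_of_ne n20, List.count_cons_of_ne n23,
      List.count_cons_of_ne n21, List.count_cons_of_ne n24, k0, k1, k2, k3, k4] at hf
    by_cases hu : (C 1 ∩ C 4).card + (C 4 ∩ C 2).card < (C 4).card
    · obtain ⟨c, hc4, hc1, hc2⟩ := exists_diff (C 4) (C 1) (C 2) (by omega)
      have hall : ∀ u, u ≠ 4 → c ∉ C u := by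
        intro u hu
        rcases five_cases u with rfl | rfl | rfl | rfl | rfl
        exacts [notMem_of_disj d40 hc4, notMem_of_disj d34.symm hc4, hc1, absurd rfl hu, hc2]
      refine ⟨c, _, hb.cons 2 c hc2 (fun u hu => hall u (by rintro rfl; revert hu; decide)), ?_⟩
      unfold Num
      simp only [Function.update_self, Function.update_of_ne n02, Function.update_of_ne n12,
        Function.update_of_ne n32, Function.update_of_ne n42]
      rw [Finset.card_insert_of_notMem hc2, card_inter_insert_mem hc2 hc4]
      exact (step1a hn.mirror (by omega)).mirror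
    · refine ⟨cf, _, hb.cons 2 cf (hcf 2) (fun u _ => hcf u), ?_⟩
      unfold Num
      simp only [Function.update_self, Function.update_of_ne n02, Function.update_of_ne n12,
        Function.update_of_ne n32, Function.update_of_ne n42]
      rw [Finset.card_insert_of_notMem (hcf 2), card_inter_insert_notMem (hcf 4)]
      exact (step1b hw hn.mirror hf.mirror (by have := hn.hrs; omega)).mirror

end Pool.Agent.TokenGame
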